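import Mathlib

set_option autoImplicit false

namespace Pool.Agent.Lss

lemma exists_ass {S T : Type} [CommRing S] [CommRing T] [IsNoetherianRing S] (I : Ideal S)
    (χ : S →+* T) (hI : ∀ x ∈ I, χ x = 0) (f : S) (hf : χ f ≠ 0) :
    ∃ P : Ideal S, IsAssociatedPrime P (S ⧸ I) ∧ (∀ u, IsUnit (χ u) → u ∉ P) ∧
      ∀ g, g * f ∈ I → g ∈ P := by
  obtain ⟨P, ⟨c, hc, rfl⟩, hmax⟩ := set_has_maximal_iff_noetherian.mpr
    (inferInstance : IsNoetherian S S)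
    {P | ∃ c, (∀ u, IsUnit (χ u) → u * (c * f) ∉ I) ∧
      P = Submodule.comap (LinearMap.mulRight S (c * f)) I}
    ⟨_, 1, fun u hu h => hf (by simpa [hu.mul_right_eq_zero] using hI _ h), rfl⟩
  have key : ∀ a, (∀ u, IsUnit (χ u) → u * (a * c * f) ∉ I) → ∀ b, b * (a * c * f) ∈ I →
      b * (c * f) ∈ I := by
    intro a ha b hb
    have h1 : Submodule.comap (LinearMap.mulRight S (c * f)) I ≤
        Submodule.comap (LinearMap.mulRight S (a * c * f)) I := by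
      intro x hx
      have : x * (a * c * f) = a * (x * (c * f)) := by ring
      exact (show x * (a * c * f) ∈ I from this ▸ I.mul_mem_left a hx)
    have h2 := h1.eq_of_not_lt (hmax _ ⟨_, ha, rfl⟩)
    exact (h2.ge hb :)
  refine ⟨Submodule.comap (LinearMap.mulRight S (c * f)) I, isAssociatedPrime_iff.2
    ⟨⟨fun e => hc 1 (by simp) ((Ideal.eq_top_iff_one _).1 e), ?_⟩,
    Ideal.Quotient.mk I (c * f), ?_⟩, hc, fun g hg => ?_⟩
  · intro a b hab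
    change a * b * (c * f) ∈ I at hab
    by_cases h : ∀ u, IsUnit (χ u) → u * (a * c * f) ∉ I
    · exact Or.inr (key a h b (by convert hab using 1; ring))
    · push Not at h
      obtain ⟨u, hu, h⟩ := h
      refine Or.inl (key u (fun v hv h2 => hc (v * u) (by simpa using hv.mul hu) ?_) a ?_)
      · convert h2 using 1; ring
      · convert h using 1; ring
  · ext x
    rw [Submodule.mem_colon_singleton, Submodule.mem_bot]
    exact (Ideal.Quotient.eq_zero_iff_mem (I := I) (a := x * (c * f))).symm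
  · change g * (c * f) ∈ I
    convert I.mul_mem_left c hg using 1; ring

lemma not_min {S T : Type} [CommRing S] [CommRing T] [IsDomain T] {I P : Ideal S}
    (ψ : S →+* T) (hI : ∀ x ∈ I, ψ x = 0) (hP : ∀ x, ψ x = 0 → x ∈ P) {g : S} (hg : g ∈ P)
    (h0 : ψ g ≠ 0) : P ∉ I.minimalPrimes := fun h =>
  h0 (h.2 (y := RingHom.ker ψ) ⟨RingHom.ker_isPrime ψ, hI⟩ hP hg)

lemma alg {R : Type} [CommRing R] {A1 A2 A3 B1 B2 B3 P1 P2 P3 Q1 Q2 Q3 R1 R2 R3 W1 W2 W3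
    Z1 Z2 Z3 V1 V2 V3 : R}
    (ap : A1 * P1 + A2 * P2 + A3 * P3 = 0) (aq : A1 * Q1 + A2 * Q2 + A3 * Q3 = 0)
    (ar : A1 * R1 + A2 * R2 + A3 * R3 = 0) (bp : B1 * P1 + B2 * P2 + B3 * P3 = 0)
    (bq : B1 * Q1 + B2 * Q2 + B3 * Q3 = 0) (br : B1 * R1 + B2 * R2 + B3 * R3 = 0)
    (aw : A1 * W1 + A2 * W2 + A3 * W3 = 0) (pw : P1 * W1 + P2 * W2 + P3 * W3 = 0)
    (bz : B1 * Z1 + B2 * Z2 + B3 * Z3 = 0) (qz : Q1 * Z1 + Q2 * Z2 + Q3 * Z3 = 0)
    (wv : W1 * V1 + W2 * V2 + W3 * V3 = 0) (zv : Z1 * V1 + Z2 * V2 + Z3 * V3 = 0) :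
    (P2 * R3 - P3 * R2) * (A3 * B1 - A1 * B3) = 0 ∧
    P2 * Q2 * Z3 * W3 * (V1 * (P1 * P1 + P2 * P2 + P3 * P3) - P1 * (V1 * P1 + V2 * P2 + V3 * P3)) *
      (B1 * (A2 * P3 - A3 * P2) + B2 * (A3 * P1 - A1 * P3) + B3 * (A1 * P2 - A2 * P1)) *
      (A3 * B1 - A1 * B3) = 0 := by
  have p1 : P2 * (A1 * B2 - A2 * B1) = P3 * (A3 * B1 - A1 * B3) := by
    linear_combination A1 * bp - B1 * ap
  have p3 : P2 * (A2 * B3 - A3 * B2) = P1 * (A3 * B1 - A1 * B3) := by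
    linear_combination B3 * ap - A3 * bp
  have q1 : Q2 * (A1 * B2 - A2 * B1) = Q3 * (A3 * B1 - A1 * B3) := by
    linear_combination A1 * bq - B1 * aq
  have q3 : Q2 * (A2 * B3 - A3 * B2) = Q1 * (A3 * B1 - A1 * B3) := by
    linear_combination B3 * aq - A3 * bq
  have r1 : R2 * (A1 * B2 - A2 * B1) = R3 * (A3 * B1 - A1 * B3) := by
    linear_combination A1 * br - B1 * ar
  have h1 : W3 * (V1 * (A2 * P3 - A3 * P2) + V2 * (A3 * P1 - A1 * P3) + V3 * (A1 * P2 - A2 * P1))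
      = 0 := by
    linear_combination (A1 * P2 - A2 * P1) * wv + V1 * (A2 * pw - P2 * aw) -
      V2 * (A1 * pw - P1 * aw)
  have h2 : Z3 * (V1 * (B2 * Q3 - B3 * Q2) + V2 * (B3 * Q1 - B1 * Q3) + V3 * (B1 * Q2 - B2 * Q1))
      = 0 := by
    linear_combination (B1 * Q2 - B2 * Q1) * zv + V1 * (B2 * qz - Q2 * bz) -
      V2 * (B1 * qz - Q1 * bz)
  generalize hC : A3 * B1 - A1 * B3 = C at *
  have e1 : C * (P2 * Q1 - Q2 * P1) = 0 := by linear_combination Q2 * p3 - P2 * q3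
  have e3 : C * (P2 * Q3 - Q2 * P3) = 0 := by linear_combination Q2 * p1 - P2 * q1
  have h3 : C * Q2 * Z3 *
      (V1 * (B2 * P3 - B3 * P2) + V2 * (B3 * P1 - B1 * P3) + V3 * (B1 * P2 - B2 * P1)) = 0 := by
    linear_combination C * P2 * h2 - Z3 * (V2 * B3 - V3 * B2) * e1 - Z3 * (V1 * B2 - V2 * B1) * e3
  have h4 : C * (V1 * (P1 * P1 + P2 * P2 + P3 * P3) - P1 * (V1 * P1 + V2 * P2 + V3 * P3)) =
      P2 * (A1 * (V1 * (B2 * P3 - B3 * P2) + V2 * (B3 * P1 - B1 * P3) + V3 * (B1 * P2 - B2 * P1)) -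
      B1 * (V1 * (A2 * P3 - A3 * P2) + V2 * (A3 * P1 - A1 * P3) + V3 * (A1 * P2 - A2 * P1))) := by
    linear_combination (P1 * V3 - P3 * V1) * p1 + P2 * (P1 * V2 - P2 * V1) * hC
  have h5 : P2 * (B1 * (A2 * P3 - A3 * P2) + B2 * (A3 * P1 - A1 * P3) + B3 * (A1 * P2 - A2 * P1))
      = - C * (P1 * P1 + P2 * P2 + P3 * P3) := by
    linear_combination (-P1) * p3 - P3 * p1 - P2 * P2 * hC
  refine ⟨by linear_combination R2 * p1 - P2 * r1, ?_⟩
  linear_combination (C * Q2 * Z3 * W3 * (V1 * (P1 * P1 + P2 * P2 + P3 * P3) -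
    P1 * (V1 * P1 + V2 * P2 + V3 * P3))) * h5 - (P1 * P1 + P2 * P2 + P3 * P3) *
    (C * Q2 * Z3 * W3 * h4 + P2 * A1 * W3 * h3 - P2 * B1 * C * Q2 * Z3 * h1)

end Pool.Agent.Lss
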